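import Pool.Agent.Helper48.AED.Spec2

set_option autoImplicit false

namespace Pool.Agent.Helper14.AED.JOIN

open Finset Pool.AED48

noncomputable def emb {k k' : ℕ} (a : EuclideanSpace ℝ (Fin k)) (b : EuclideanSpace ℝ (Fin k')) :
    EuclideanSpace ℝ (Fin (k + k')) := WithLp.toLp 2 (Fin.append a.ofLp b.ofLp)

theorem emb_inner {k k' : ℕ} (a c : EuclideanSpace ℝ (Fin k)) (b d : EuclideanSpace ℝ (Fin k')) :
    inner ℝ (emb a b) (emb c d) = inner ℝ a c + inner ℝ b d := by
  simp only [EuclideanSpace.inner_eq_star_dotProduct, emb, dotProduct, star_trivial,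
    Fin.sum_univ_add, Fin.append_left, Fin.append_right, Pi.star_apply]

theorem emb_sub {k k' : ℕ} (a c : EuclideanSpace ℝ (Fin k)) (b d : EuclideanSpace ℝ (Fin k')) :
    emb a b - emb c d = emb (a - c) (b - d) := by
  ext i
  induction i using Fin.addCases <;> simp [emb]

theorem emb_norm {k k' : ℕ} (a : EuclideanSpace ℝ (Fin k)) (b : EuclideanSpace ℝ (Fin k')) :
    ‖emb a b‖ ^ 2 = ‖a‖ ^ 2 + ‖b‖ ^ 2 := by
  rw [← real_inner_self_eq_norm_sq, ← real_inner_self_eq_norm_sq, ← real_inner_self_eq_norm_sq,
    emb_inner]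

theorem sq_inj {x y : ℝ} (hx : 0 ≤ x) (hy : 0 ≤ y) (h : x ^ 2 = y ^ 2) : x = y :=
  (pow_left_inj₀ hx hy two_ne_zero).1 h

theorem dist1 {k k' : ℕ} (a c : EuclideanSpace ℝ (Fin k)) :
    dist (emb a (0 : EuclideanSpace ℝ (Fin k'))) (emb c 0) = dist a c := by
  rw [dist_eq_norm, dist_eq_norm, emb_sub]
  refine sq_inj (norm_nonneg _) (norm_nonneg _) ?_
  rw [emb_norm]
  simp

theorem dist2 {k k' : ℕ} (b d : EuclideanSpace ℝ (Fin k')) :
    dist (emb (0 : EuclideanSpace ℝ (Fin k)) b) (emb 0 d) = dist b d := by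
  rw [dist_eq_norm, dist_eq_norm, emb_sub]
  refine sq_inj (norm_nonneg _) (norm_nonneg _) ?_
  rw [emb_norm]
  simp

theorem dist3 {k k' : ℕ} (a : EuclideanSpace ℝ (Fin k)) (d : EuclideanSpace ℝ (Fin k'))
    (ha : ‖a‖ ^ 2 = 1 / 2) (hd : ‖d‖ ^ 2 = 1 / 2) : dist (emb a 0) (emb 0 d) = 1 := by
  rw [dist_eq_norm, emb_sub]
  refine sq_inj (norm_nonneg _) zero_le_one ?_
  rw [emb_norm, sub_zero, zero_sub, norm_neg, ha, hd]
  norm_num

theorem main : S_JOIN := by
  intro m k m' k' q q' h h'
  obtain ⟨η, hη⟩ := h.plane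
  obtain ⟨η', hη'⟩ := h'.plane
  have d1 : ∀ i j, dist (emb (q i) (0 : EuclideanSpace ℝ (Fin k'))) (emb (q j) 0) =
      dist (q i) (q j) := fun i j => dist1 _ _
  have d2 : ∀ i j, dist (emb (0 : EuclideanSpace ℝ (Fin k)) (q' i)) (emb 0 (q' j)) =
      dist (q' i) (q' j) := fun i j => dist2 _ _
  have d3 : ∀ i j, dist (emb (q i) 0) (emb 0 (q' j)) = 1 := fun i j =>
    dist3 _ _ (h.norm i) (h'.norm j)
  have d4 : ∀ i j, dist (emb 0 (q' j)) (emb (q i) 0) = 1 := fun i j => by
    rw [dist_comm, d3]
  refine ⟨fun i => Fin.addCases (motive := fun _ => EuclideanSpace ℝ (Fin (k + k')))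
    (fun i => emb (q i) 0) (fun j => emb 0 (q' j)) i, ⟨?_, ?_, ?_⟩, ?_, emb η η', ?_⟩
  · intro i j hij
    have h0 := dist_eq_zero.2 hij
    induction i using Fin.addCases with
    | left i =>
      induction j using Fin.addCases with
      | left j =>
        simp only [Fin.addCases_left, d1] at h0
        rw [h.cfg.inj (dist_eq_zero.1 h0)]
      | right j =>
        simp only [Fin.addCases_left, Fin.addCases_right, d3] at h0
        exact absurd h0 one_ne_zero
    | right i =>
      induction j using Fin.addCases with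
      | left j =>
        simp only [Fin.addCases_left, Fin.addCases_right, d4] at h0
        exact absurd h0 one_ne_zero
      | right j =>
        simp only [Fin.addCases_right, d2] at h0
        rw [h'.cfg.inj (dist_eq_zero.1 h0)]
  · intro i j
    induction i using Fin.addCases <;> induction j using Fin.addCases <;>
      simp only [Fin.addCases_left, Fin.addCases_right, d1, d2, d3, d4, le_refl, h.cfg.le_one,
        h'.cfg.le_one]
  · intro i j l hij hjl hil
    induction i using Fin.addCases <;> induction j using Fin.addCases <;>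
      induction l using Fin.addCases <;>
      simp only [Fin.addCases_left, Fin.addCases_right, d1, d2, d3, d4, true_or, or_true]
    · exact h.cfg.triple _ _ _ (fun e => hij (by rw [e])) (fun e => hjl (by rw [e]))
        (fun e => hil (by rw [e]))
    · exact h'.cfg.triple _ _ _ (fun e => hij (by rw [e])) (fun e => hjl (by rw [e]))
        (fun e => hil (by rw [e]))
  · intro i
    induction i using Fin.addCases with
    | left i => simp only [Fin.addCases_left, emb_norm, h.norm]; simp
    | right i => simp only [Fin.addCases_right, emb_norm, h'.norm]; simp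
  · intro i
    induction i using Fin.addCases with
    | left i => simp only [Fin.addCases_left, emb_inner, hη]; simp
    | right i => simp only [Fin.addCases_right, emb_inner, hη']; simp

end Pool.Agent.Helper14.AED.JOIN
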