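import Pool.Agent.Helper48.AED.Spec

set_option autoImplicit false

namespace Pool.Agent.Helper14.AED.SIM

open Finset Pool.AED48

/-- A linear family of vectors on which the form is positive has dimension at most `d + 1`. -/
theorem inj_card {n d : ℕ} {A : Matrix (Fin n) (Fin n) ℝ} (hA : Good n d A) (X : Finset (Fin n))
    (E : (X → ℝ) →ₗ[ℝ] (Fin n → ℝ)) (h : ∀ c, qf A (E c) = 0 → c = 0) : X.card ≤ d + 1 := by
  obtain ⟨L, hL⟩ := hA.lin
  let s : (Fin n → ℝ) →ₗ[ℝ] ℝ := ∑ i, LinearMap.proj i
  have hs : ∀ v, s v = ∑ i, v i := fun v => by simp [s, LinearMap.sum_apply]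
  let T : (X → ℝ) →ₗ[ℝ] ℝ × (Fin d → ℝ) := (s ∘ₗ E).prod (L ∘ₗ E)
  have hT : Function.Injective T := by
    rw [injective_iff_map_eq_zero]
    intro c hc
    have h1 : s (E c) = 0 := congrArg Prod.fst hc
    have h2 : L (E c) = 0 := congrArg Prod.snd hc
    refine h c ?_
    rw [hL _ (by rw [← hs, h1]), h2]
    simp
  have h3 := LinearMap.finrank_le_finrank_of_injective hT
  rw [Module.finrank_prod, Module.finrank_fintype_fun_eq_card, Module.finrank_fintype_fun_eq_card,
    Module.finrank_self, Fintype.card_coe, Fintype.card_fin] at h3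
  omega

theorem main : S_SIM := by
  classical
  intro n d A hA X hX
  let E : (X → ℝ) →ₗ[ℝ] (Fin n → ℝ) := LinearMap.pi fun i =>
    if h : i ∈ X then LinearMap.proj (⟨i, h⟩ : X) else 0
  have hE1 : ∀ c (i : X), E c i = c i := fun c i => by
    simp [E, LinearMap.pi_apply, i.2]
  have hE0 : ∀ c i, i ∉ X → E c i = 0 := fun c i hi => by
    simp [E, LinearMap.pi_apply, hi]
  refine inj_card hA X E fun c hc => ?_
  have h1 : ∑ i, ∑ j, E c i * A i j * E c j = 0 := by
    refine Finset.sum_eq_zero fun i _ => Finset.sum_eq_zero fun j _ => ?_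
    by_cases hi : i ∈ X
    · by_cases hj : j ∈ X
      · rw [hX i hi j hj]
        ring
      · rw [hE0 c j hj]
        ring
    · rw [hE0 c i hi]
      ring
  rw [qf, h1, add_zero] at hc
  rw [Finset.sum_eq_zero_iff_of_nonneg fun i _ => sq_nonneg _] at hc
  funext i
  have h2 := hc i (Finset.mem_univ _)
  rw [hE1] at h2
  simpa using h2

end Pool.Agent.Helper14.AED.SIM
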